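import Pool.Agent.MP_8be872_ag.H63.SpecB
import Pool.Agent.MP_8be872_ag.H63.ApiB

/-! The global dg algebras. -/

namespace Pool.Agent.MP_8be872_ag.H44

open Finset H38 H56 H63 MvPolynomial
open scoped Matrix

section Gen

variable {E O N : Type} [Fintype E] [Fintype O] [DecidableEq E] [DecidableEq O]

/-- Matrices of words. -/
def HM (P : N → N → (E ⊕ O → ℕ) → Prop) : AddSubgroup (Matrix N N (Module.End ℂ (Sp E O))) where
  carrier := {M | ∀ p q, M p q ∈ words (P p q)}
  zero_mem' _ _ := Submodule.zero_mem _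
  add_mem' h h' p q := Submodule.add_mem _ (h p q) (h' p q)
  neg_mem' h p q := Submodule.neg_mem _ (h p q)

theorem HM_mul [Fintype N] {P P' P'' : N → N → (E ⊕ O → ℕ) → Prop}
    {M M' : Matrix N N (Module.End ℂ (Sp E O))} (h : M ∈ HM P) (h' : M' ∈ HM P')
    (e : ∀ p r q a b, P p r a → P' r q b → P'' p q (a + b)) : M * M' ∈ HM P'' := fun p q => by
  rw [Matrix.mul_apply]
  exact Submodule.sum_mem _ fun r _ => mul_mem_words (h p r) (h' r q) (e p r q)

end Gen

variable {Q : Quiv} {w v D : Fin Q.n → ℕ} {J : Type}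

theorem ofM_gg {A : Type} (M : Kd Q → Nb Q w v D → Nb Q w v D → A) (t e : J → A) (k : Kd Q)
    (p q : Nb Q w v D) : ofM M t e (gg k p q) = M k p q := by
  rcases k with k | k <;> rfl

theorem gg_isRight (k : Kd Q) (p q : Nb Q w v D) :
    (gg (J := J) k p q).isRight = k.isRight := by
  rcases k with k | k <;> rfl

theorem g_ind {S : Ix Q w v D J ⊕ Ix Q w v D J → Prop} (h : ∀ k p q, S (gg k p q))
    (ht : ∀ j, S (.inl (.inr j))) (he : ∀ j, S (.inr (.inr j))) (g) : S g := by
  rcases g with (⟨τ, p, q⟩ | j) | (⟨τ, p, q⟩ | j)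
  exacts [h (.inl τ) p q, ht j, h (.inr τ) p q, he j]

theorem al_gg {R : Nb Q w v D → Nb Q w v D → Prop} {k : Kd Q} {p q : Nb Q w v D} :
    AlG (J := J) R (gg k p q) ↔ shape R k p q := by
  rw [AlG, ofM_gg]

theorem kind_gg {U : Kd Q → Prop} {k : Kd Q} {p q : Nb Q w v D} :
    kind (J := J) U (gg k p q) ↔ U k := by
  rw [kind, ofM_gg]

theorem msk_pos {A : Type} [Zero A] {R : Nb Q w v D → Nb Q w v D → Prop}
    (M : Kd Q → Nb Q w v D → Nb Q w v D → A) {k : Kd Q} {p q : Nb Q w v D} (h : shape R k p q) :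
    msk R M k p q = M k p q := if_pos h

theorem msk_neg {A : Type} [Zero A] {R : Nb Q w v D → Nb Q w v D → Prop}
    (M : Kd Q → Nb Q w v D → Nb Q w v D → A) {k : Kd Q} {p q : Nb Q w v D} (h : ¬ shape R k p q) :
    msk R M k p q = 0 := if_neg h

theorem shape_iff {k : Kd Q} (hk : k ≠ kc) (R R' : Nb Q w v D → Nb Q w v D → Prop)
    (p q : Nb Q w v D) : shape R k p q ↔ shape R' k p q := by
  rcases k with (ε | _ | _) | ε | _ | _
  all_goals first | exact Iff.rfl | exact absurd rfl hk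

theorem shape_kc {R : Nb Q w v D → Nb Q w v D → Prop} {p q : Nb Q w v D} :
    shape R kc p q ↔ arrow (.inr true) p q ∧ R p q := Iff.rfl

theorem R_le {R : Nb Q w v D → Nb Q w v D → Prop} (hR : R = rad ∨ R = radF) {p q : Nb Q w v D}
    (h : R p q) : radP p q := by
  intro h0
  rcases hR with rfl | rfl
  · exact absurd (h0 ▸ h : blk p < 0) (Nat.not_lt_zero _)
  · rcases h with h | ⟨a, b, rfl, rfl, -⟩
    · exact absurd (h0 ▸ h : blk p < 0) (Nat.not_lt_zero _)
    · exact h0

theorem R_trans {R : Nb Q w v D → Nb Q w v D → Prop} (hR : R = rad ∨ R = radF)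
    {p r q : Nb Q w v D} (h : R p r) (h' : R r q) : R p q := by
  rcases hR with rfl | rfl
  · exact lt_trans h h'
  · rcases h with h | ⟨a, b, rfl, rfl, h⟩ <;> rcases h' with h' | ⟨a', b', e, rfl, h'⟩
    · exact .inl (lt_trans h h')
    · subst e
      exact .inl h
    · exact .inl h'
    · obtain rfl : b = a' := Sum.inl.inj (Sum.inr.inj e)
      exact .inr ⟨a, b', rfl, rfl, lt_trans h' h⟩

theorem shape_le {R : Nb Q w v D → Nb Q w v D → Prop} (hR : R = rad ∨ R = radF) {k : Kd Q}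
    {p q : Nb Q w v D} (h : shape R k p q) : shape radP k p q := by
  by_cases hk : k = kc
  · subst hk
    exact ⟨h.1, R_le hR h.2⟩
  · exact (shape_iff hk _ _ p q).1 h

/-- The weight of a kind. -/
noncomputable def kw : Kd Q → G
  | .inl (.inl ε) => arrWt Q ε
  | .inl (.inr true) => -qq
  | .inl (.inr false) => -hb - qq
  | .inr (.inl ε) => arrWt Q ε - qq
  | .inr (.inr true) => 0
  | .inr (.inr false) => -hb

theorem wt_gg (x : Nb Q w v D → G) (φ : J → G) (k : Kd Q) (p q : Nb Q w v D) :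
    wt x φ (gg k p q) = x q - x p - kw k := by
  rcases k with (ε | _ | _) | ε | _ | _ <;> rfl

theorem arr_add (o : Option (Fin Q.ne)) : arrWt Q (o, true) + arrWt Q (o, false) = -hb := by
  rcases o with _ | e <;> simp only [arrWt, H38.hb] <;> abel

/-- The ghosts. -/
def gh (R : Nb Q w v D → Nb Q w v D → Prop) (g : Ix Q w v D J ⊕ Ix Q w v D J) : Prop :=
  AlG R g ∧ kind (· = kc) g

theorem e0_gg {k : Kd Q} {p q : Nb Q w v D} (h : E0G (J := J) (gg k p q)) :
    shape rad k p q ∧ ((∃ ε, k = kx ε) ∨ k = ka) := by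
  refine ⟨al_gg.1 h.1, ?_⟩
  have := kind_gg.1 h.2
  rcases k with (ε | _ | _) | ε | _ | _ <;> simp [kdeg] at this ⊢

theorem e0_al (R : Nb Q w v D → Nb Q w v D → Prop) (g : Ix Q w v D J ⊕ Ix Q w v D J) :
    E0G g → AlG R g ∧ g.isLeft := by
  induction g using g_ind with
  | h k p q =>
    intro h
    obtain ⟨h1, ⟨ε, rfl⟩ | rfl⟩ := e0_gg h
    · exact ⟨h1, rfl⟩
    · exact ⟨h1, rfl⟩
  | ht j => exact fun h => h.1.elim
  | he j => exact fun h => h.1.elim

theorem th_gg {k : Kd Q} (h : kdeg k = -1) : (∃ ε, k = kt ε) ∨ k = ke := by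
  rcases k with (ε | _ | _) | ε | _ | _ <;> simp [kdeg] at h ⊢

theorem Ypol_odd (τ : Arr Q ⊕ Bool) : Ypol (w := w) (v := v) (D := D) (J := J) (.inr τ) = 0 := by
  funext p q
  by_cases h : shape rad (.inr τ) p q
  · exact msk_pos _ h
  · exact msk_neg _ h

theorem Ypol_eval (y : Ix Q w v D J → ℂ) (k : Kd Q) : (Ypol k).map (eval y) = pt y k := by
  funext p q
  rw [Matrix.map_apply, Ypol, pt]
  by_cases h : shape rad k p q
  · rw [msk_pos _ h, msk_pos _ h]
    rcases k with k | k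
    · exact eval_X _
    · exact map_zero _
  · rw [msk_neg _ h, msk_neg _ h, map_zero]

theorem rG_pos {k : Kd Q} {p q : Nb Q w v D} (h : shape rad k p q) :
    rG (J := J) (gg k p q) = Phi Q Ypol k p q := (ofM_gg _ _ _ k p q).trans (msk_pos _ h)

theorem rG_neg {k : Kd Q} {p q : Nb Q w v D} (h : ¬ shape rad k p q) :
    rG (J := J) (gg k p q) = 0 := (ofM_gg _ _ _ k p q).trans (msk_neg _ h)

theorem onQ (hD : DSqStmt) (R : Nb Q w v D → Nb Q w v D → Prop) (y : Ix Q w v D J → ℂ) :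
    (∀ g, AlG R g ∧ kind (fun k => kdeg k = -1) g → eval y (rG g) = 0) ↔ OnQ y := by
  have e : ∀ k p q, shape rad k p q → eval y (rG (gg k p q)) = msk rad (Phi Q (pt y)) k p q := by
    intro k p q h
    have := congrFun (congrFun (hD.1 Q _ _ _ (eval y) Ypol k) p) q
    simp only [Ypol_eval] at this
    rw [rG_pos h]
    exact this.trans (msk_pos _ h).symm
  constructor
  · intro h τ
    funext p q
    by_cases hs : shape rad (.inr τ) p q
    · by_cases hk : (.inr τ : Kd Q) = kc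
      · have h0 : pt y kc = 0 := by rw [← Ypol_eval, Ypol_odd, Matrix.map_zero _ (map_zero _)]
        refine (msk_pos _ hs).trans ?_
        rw [hk]
        change (-(pt y kc * pt y kc)) p q = 0
        rw [h0, mul_zero, neg_zero]
        rfl
      · rw [← e _ p q hs]
        refine h _ ⟨al_gg.2 ((shape_iff hk _ _ p q).1 hs), kind_gg.2 ?_⟩
        rcases τ with ε | _ | _
        exacts [rfl, rfl, absurd rfl hk]
    · exact msk_neg _ hs
  · intro h g
    induction g using g_ind with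
    | h k p q =>
      rintro ⟨h1, h2⟩
      obtain ⟨ε, rfl⟩ | rfl := th_gg (kind_gg.1 h2)
      · rw [e _ p q h1, h]
        rfl
      · rw [e _ p q h1, h]
        rfl
    | ht j => exact fun h => h.1.elim
    | he j => exact fun h => h.1.elim

variable [Fintype J] [DecidableEq J]

/-- Homogeneous matrices. -/
noncomputable def gr (R : Nb Q w v D → Nb Q w v D → Prop) (φ : J → G) (s : G) (b : Bool) (n : ℕ) :
    AddSubgroup (Matrix (Nb Q w v D) (Nb Q w v D) (OpQ Q w v D J)) :=
  HM fun p q μ => sup (AlG R) μ ∧ ws (wt bw φ) μ = bw q - bw p - s ∧ od μ = b ∧ n ≤ cnt (gh R) μ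

variable {R : Nb Q w v D → Nb Q w v D → Prop} {φ : J → G}

theorem gr_mul {s s' s'' : G} {b b' b'' : Bool} {n n' n'' : ℕ}
    {M M' : Matrix (Nb Q w v D) (Nb Q w v D) (OpQ Q w v D J)} (h : M ∈ gr R φ s b n)
    (h' : M' ∈ gr R φ s' b' n') (hs : s + s' = s'') (hb : xor b b' = b'') (hn : n'' ≤ n + n') :
    M * M' ∈ gr R φ s'' b'' n'' :=
  HM_mul h h' fun p r q a c h1 h2 => ⟨sup_add.2 ⟨h1.1, h2.1⟩, by
    rw [ws_add, h1.2.1, h2.2.1, ← hs]; abel, by rw [od_add, h1.2.2.1, h2.2.2.1, hb], by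
    rw [cnt_add]; exact hn.trans (add_le_add h1.2.2.2 h2.2.2.2)⟩

theorem Yg_mem (k : Kd Q) : Yg R k ∈ gr R φ (kw k) k.isRight 0 := fun p q => by
  by_cases h : shape R k p q
  · rw [Yg, msk_pos _ h]
    exact gn_mem_words ⟨sup_single.2 (al_gg.2 h), by rw [ws_single, wt_gg],
      by rw [od_single, gg_isRight], Nat.zero_le _⟩
  · rw [Yg, msk_neg _ h]
    exact Submodule.zero_mem _

theorem c_mem : Yg R kc ∈ gr R φ 0 true 1 := fun p q => by
  by_cases h : shape R kc p q
  · rw [Yg, msk_pos _ h]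
    exact gn_mem_words ⟨sup_single.2 (al_gg.2 h), by rw [ws_single, wt_gg]; rfl,
      by rw [od_single, gg_isRight]; rfl,
      Nat.one_le_iff_ne_zero.2 (cnt_ne_zero.2 (has_single.2 ⟨al_gg.2 h, kind_gg.2 rfl⟩))⟩
  · rw [Yg, msk_neg _ h]
    exact Submodule.zero_mem _

theorem mc (k : Kd Q) {n : ℕ} (hn : n ≤ 1) :
    Yg R k * Yg R kc ∈ gr R φ (kw k) (!k.isRight) n :=
  gr_mul (Yg_mem k) c_mem (add_zero _) (Bool.xor_true _) hn

theorem cm (k : Kd Q) {n : ℕ} (hn : n ≤ 1) :
    Yg R kc * Yg R k ∈ gr R φ (kw k) (!k.isRight) n :=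
  gr_mul c_mem (Yg_mem k) (zero_add _) (Bool.true_xor _) hn

theorem mm (k k' : Kd Q) {s : G} (hs : kw k + kw k' = s) :
    Yg R k * Yg R k' ∈ gr R φ s (xor k.isRight k'.isRight) 0 :=
  gr_mul (Yg_mem k) (Yg_mem k') hs rfl le_rfl

/-- The number of ghosts in the differential of a kind. -/
def pn : Kd Q → ℕ
  | .inl (.inl _) | .inl (.inr true) | .inr (.inr true) => 1
  | _ => 0

theorem Phi_mem (k : Kd Q) : Phi Q (Yg R) k ∈ gr R φ (kw k) (!k.isRight) (pn k) := by
  rcases k with (ε | _ | _) | ε | _ | _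
  · exact sub_mem (mc _ le_rfl) (cm _ le_rfl)
  · have a : ∀ o : Option (Fin Q.ne), arrWt Q (o, true) + (arrWt Q (o, false) - qq) = -hb - qq :=
      fun o => by rw [← arr_add o]; abel
    have b : ∀ o : Option (Fin Q.ne), arrWt Q (o, false) + (arrWt Q (o, true) - qq) = -hb - qq :=
      fun o => by rw [← arr_add o]; abel
    refine sub_mem (add_mem (sub_mem (sub_mem (mm ke ka (sub_eq_add_neg _ _).symm)
      (mm ka ke ((add_comm _ _).trans (sub_eq_add_neg _ _).symm))) (sum_mem fun o _ => ?_))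
      (mc kz zero_le_one)) (cm kz zero_le_one)
    exact sub_mem (sub_mem (add_mem (mm (kx _) (kt _) (a o))
      (mm (kt _) (kx _) ((add_comm _ _).trans (b o)))) (mm (kx _) (kt _) (b o)))
      (mm (kt _) (kx _) ((add_comm _ _).trans (a o)))
  · exact sub_mem (mc _ le_rfl) (cm _ le_rfl)
  · exact sub_mem (sub_mem (sub_mem (mm (kx ε) ka (sub_eq_add_neg _ _).symm)
      (mm ka (kx ε) ((add_comm _ _).trans (sub_eq_add_neg _ _).symm))) (cm (kt ε) zero_le_one))
      (mc (kt ε) zero_le_one)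
  · exact sub_mem (sub_mem (sum_mem fun o _ => sub_mem (mm (kx _) (kx _) (arr_add o))
      (mm (kx _) (kx _) ((add_comm _ _).trans (arr_add o)))) (cm ke zero_le_one))
      (mc ke zero_le_one)
  · exact neg_mem (mc kc le_rfl)

theorem dG_pos {k : Kd Q} {p q : Nb Q w v D} (h : shape R k p q) :
    dG (J := J) R (gg k p q) = Phi Q (Yg R) k p q := (ofM_gg _ _ _ k p q).trans (msk_pos _ h)

theorem dG_zero (g : Ix Q w v D J ⊕ Ix Q w v D J) : ¬ AlG R g → dG R g = 0 := by
  induction g using g_ind with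
  | h k p q => exact fun h => (ofM_gg _ _ _ k p q).trans (msk_neg _ fun h' => h (al_gg.2 h'))
  | ht j => exact fun _ => rfl
  | he j => exact fun _ => rfl

theorem dG_ind {S : Ix Q w v D J ⊕ Ix Q w v D J → OpQ Q w v D J → Prop} (h0 : ∀ g, S g 0)
    (h : ∀ k p q, shape R k p q → S (gg k p q) (Phi Q (Yg R) k p q)) (g) : S g (dG R g) := by
  by_cases hg : AlG R g
  · induction g using g_ind with
    | h k p q => exact dG_pos (J := J) (al_gg.1 hg) ▸ h k p q (al_gg.1 hg)
    | ht j => exact hg.elim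
    | he j => exact hg.elim
  · exact dG_zero g hg ▸ h0 g

theorem dG_mem (φ : J → G) (g : Ix Q w v D J ⊕ Ix Q w v D J) : dG R g ∈ words fun μ =>
    sup (AlG R) μ ∧ ws (wt bw φ) μ = wt bw φ g ∧ od μ = !g.isRight :=
  dG_ind (S := fun g m => m ∈ words fun μ =>
      sup (AlG R) μ ∧ ws (wt bw φ) μ = wt bw φ g ∧ od μ = !g.isRight)
    (fun _ => Submodule.zero_mem _) (fun k p q _ => words_le (fun μ h =>
      ⟨h.1, by rw [wt_gg, h.2.1], by rw [gg_isRight, h.2.2.1]⟩) (Phi_mem (φ := φ) k p q)) g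

theorem dG_sq (hD : DSqStmt) (hR : R = rad ∨ R = radF) :
    vf (dG (J := J) R) * vf (dG R) = 0 := by
  have par : ∀ g, dG (J := J) R g ∈ words fun μ => od μ = !g.isRight := fun g =>
    words_le (fun _ h => h.2.2) (dG_mem 0 g)
  have key := hD.2 Q w v D _ (vf (dG (J := J) R)) (Yg R)
    (fun k p q h => msk_neg _ fun h' => h (shape_le hR h')) fun k p q h => by
      by_cases hs : shape R k p q
      · have := vf_gn (s := true) (fun g => by rw [Bool.xor_true]; exact par g) (gg k p q)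
        rw [dG_pos hs, gg_isRight, Bool.true_and] at this
        rw [← this, Yg, msk_pos _ hs]
        cases k.isRight
        · rw [sg_false, one_smul]
          rfl
        · rw [sg_true_smul (R := OpQ Q w v D J), sub_neg_eq_add]
          rfl
      · obtain rfl : k = kc := by
          by_contra hk
          exact hs ((shape_iff hk _ _ p q).1 h)
        have h0 : ∑ r, Yg (J := J) R kc p r * Yg R kc r q = 0 := by
          refine sum_eq_zero fun r _ => ?_
          by_cases h1 : shape R kc p r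
          · by_cases h2 : shape R kc r q
            · exact absurd ⟨h.1, R_trans hR h1.2 h2.2⟩ hs
            · rw [show Yg (J := J) R kc r q = 0 from msk_neg _ h2, mul_zero]
          · rw [show Yg (J := J) R kc p r = 0 from msk_neg _ h1, zero_mul]
        change _ = -∑ r, Yg (J := J) R kc p r * Yg R kc r q
        rw [h0, show Yg (J := J) R kc p q = 0 from msk_neg _ hs]
        simp
  refine vf_sq par (dG_ind (S := fun g m =>
    vf (dG R) * m = sg (!g.isRight) • (m * vf (dG R))) (fun _ => by simp) fun k p q h => ?_)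
  have := key k p q (shape_le hR h)
  rw [gg_isRight]
  revert this
  cases k.isRight
  · rw [Bool.not_false, sg_true_smul (R := OpQ Q w v D J)]
    exact eq_neg_of_add_eq_zero_left
  · rw [Bool.not_true, sg_false, one_smul]
    exact eq_of_sub_eq_zero

theorem good (hD : DSqStmt) (hR : R = rad ∨ R = radF) (φ : J → G)
    (f : J → MvPolynomial (Ix Q w v D J) ℂ) (hf : ∀ j, Homog (f j) (φ j)) :
    Good (AlG R) (wt bw φ) (dG R) 0 f where
  alT _ := id
  alE _ := id
  wtE _ := rfl
  dz := dG_zero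
  dw := dG_mem φ
  ow := Submodule.zero_mem _
  sq := dG_sq hD hR
  osq := by rw [mul_zero, zero_mul, add_zero]
  fw j := mono_le (fun μ h => ⟨fun g hg => (e0_al R g (h.1 g hg)).1, by
    refine Eq.trans (Eq.trans ?_ h.2) (neg_neg _).symm
    refine sum_congr rfl fun g _ => ?_
    by_cases hg : μ g = 0
    · rw [hg, zero_smul, zero_smul]
    · have := (h.1 g hg).1
      induction g using g_ind with
      | h k p q => rw [wt_gg, wt_gg]
      | ht j => exact this.elim
      | he j => exact this.elim⟩) (hf j)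

/-- The matrices of multiplications by the coordinates. -/
noncomputable def Y0 (k : Kd Q) : Matrix (Nb Q w v D) (Nb Q w v D) (OpQ Q w v D J) :=
  (Ypol k).map (mulA (O := Ix Q w v D J)).toRingHom

theorem Y0_odd (τ : Arr Q ⊕ Bool) : Y0 (w := w) (v := v) (D := D) (J := J) (.inr τ) = 0 := by
  rw [Y0, Ypol_odd, Matrix.map_zero _ (map_zero _)]

theorem Y0_even (R : Nb Q w v D → Nb Q w v D → Prop) (τ : Arr Q ⊕ Bool) :
    Y0 (J := J) (.inl τ) = Yg R (.inl τ) := by
  funext p q
  rw [Y0, Matrix.map_apply, Ypol, Yg]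
  by_cases h : shape rad (.inl τ) p q
  · rw [msk_pos _ h, msk_pos _ ((shape_iff Sum.inl_ne_inr _ _ p q).1 h)]
    rfl
  · rw [msk_neg _ h, msk_neg _ (mt (shape_iff Sum.inl_ne_inr _ _ p q).1 h), map_zero]

theorem mul_rG (hD : DSqStmt) {k : Kd Q} {p q : Nb Q w v D} (h : shape rad k p q) :
    (mul (rG (gg k p q)) : OpQ Q w v D J) = Phi Q Y0 k p q := by
  rw [rG_pos h]
  exact congrFun (congrFun (hD.1 Q _ _ _ (mulA (O := Ix Q w v D J)).toRingHom Ypol k) p) q

theorem Y0_mem {k : Kd Q} (hk : kdeg k = 0) :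
    Y0 k ∈ HM fun _ _ : Nb Q w v D => sup (E0G (J := J)) := fun p q => by
  obtain ⟨τ, rfl⟩ : ∃ τ, k = .inl τ := by
    rcases k with τ | ε | _ | _
    · exact ⟨τ, rfl⟩
    all_goals simp [kdeg] at hk
  rw [Y0_even rad, Yg]
  by_cases h : shape rad (.inl τ) p q
  · rw [msk_pos _ h]
    exact gn_mem_words (sup_single.2 ⟨al_gg.2 h, kind_gg.2 hk⟩)
  · rw [msk_neg _ h]
    exact Submodule.zero_mem _

theorem Phi0_mem (k : Kd Q) : Phi Q Y0 k ∈ HM fun _ _ : Nb Q w v D => sup (E0G (J := J)) := by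
  have m : ∀ k k' : Kd Q, kdeg k = 0 → kdeg k' = 0 →
      Y0 k * Y0 k' ∈ HM fun _ _ : Nb Q w v D => sup (E0G (J := J)) := fun k k' h h' =>
    HM_mul (Y0_mem h) (Y0_mem h') fun _ _ _ _ _ a b => sup_add.2 ⟨a, b⟩
  rcases k with (ε | _ | _) | ε | _ | _ <;>
    simp only [Phi, Y0_odd, mul_zero, zero_mul, sub_zero, add_zero, neg_zero, sum_const_zero,
      zero_mem]
  · exact sub_mem (m _ _ rfl rfl) (m _ _ rfl rfl)
  · exact sum_mem fun o _ => sub_mem (m _ _ rfl rfl) (m _ _ rfl rfl)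

theorem has_of {s : G} {b : Bool} {M : Matrix (Nb Q w v D) (Nb Q w v D) (OpQ Q w v D J)}
    (h : M ∈ gr R φ s b 1) (p q : Nb Q w v D) : M p q ∈ words (has (gh R)) :=
  words_le (fun _ a => cnt_ne_zero.1 (Nat.one_le_iff_ne_zero.1 a.2.2.2)) (h p q)

theorem eqs (hD : DSqStmt) : Eqs (AlG R) (dG (J := J) R) 0 (fun g => AlG R g ∧ kind (· = kc) g) E0G
    (fun g => AlG R g ∧ kind (fun k => kdeg k = -1) g) rG where
  ghO g h := ⟨h.1, by
    induction g using g_ind with
    | h k p q => rw [gg_isRight, kind_gg.1 h.2]; rfl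
    | ht j => exact h.1.elim
    | he j => rfl⟩
  e0E := e0_al R
  thO g h := by
    induction g using g_ind with
    | h k p q =>
      refine ⟨h.1, ?_, fun h' => ?_⟩
      · obtain ⟨ε, rfl⟩ | rfl := th_gg (kind_gg.1 h.2) <;> rfl
      · have a := kind_gg.1 h.2
        rw [kind_gg.1 h'.2] at a
        simp [kdeg] at a
    | ht j => exact h.1.elim
    | he j => exact h.1.elim
  mono_gh := dG_ind (S := fun g m => m ∈ words fun μ => cnt (gh R) (Pi.single g 1) ≤ cnt (gh R) μ)
    (fun _ => Submodule.zero_mem _) fun k p q _ => words_le (fun μ h => by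
      classical
      refine le_trans ?_ h.2.2.2
      rw [cnt_single]
      split_ifs with h1
      · rw [kind_gg.1 h1.2]
        exact le_rfl
      · exact Nat.zero_le _) (Phi_mem (φ := 0) k p q)
  e0 := dG_ind (S := fun g m => E0G g → m ∈ words (has (gh R)))
    (fun _ _ => Submodule.zero_mem _) fun k p q _ h => by
      obtain ⟨-, ⟨ε, rfl⟩ | rfl⟩ := e0_gg h
      · exact has_of (Phi_mem (φ := 0) (kx ε)) p q
      · exact has_of (Phi_mem (φ := 0) ka) p q
  om := Submodule.zero_mem _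
  th g h := by
    induction g using g_ind with
    | h k p q =>
      have key : k ≠ kc ∧ Phi Q (Yg R) k - Phi Q Y0 k =
          -(Yg (J := J) R kc * Yg R k) - Yg R k * Yg R kc := by
        obtain ⟨ε, rfl⟩ | rfl := th_gg (kind_gg.1 h.2)
        · refine ⟨by simp, ?_⟩
          simp only [Phi, Y0_odd, Y0_even R, mul_zero, sub_zero]
          abel
        · refine ⟨by simp, ?_⟩
          simp only [Phi, Y0_odd, Y0_even R, mul_zero, sub_zero]
          abel
      rw [dG_pos (al_gg.1 h.1), mul_rG hD ((shape_iff key.1 _ _ p q).1 (al_gg.1 h.1)),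
        ← Matrix.sub_apply, key.2]
      exact has_of (φ := 0) (sub_mem (neg_mem (cm k le_rfl)) (mc k le_rfl)) p q
    | ht j => exact h.1.elim
    | he j => exact h.1.elim
  rv g := by
    induction g using g_ind with
    | h k p q =>
      rw [← mul_one_eq]
      by_cases h : shape rad k p q
      · rw [mul_rG hD h]
        exact words_one_mem (Phi0_mem k p q)
      · rw [rG_neg h, mul_one_eq]
        exact pol_mem.2 fun m hm => absurd rfl hm
    | ht j => exact pol_mem.2 fun m hm => absurd rfl hm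
    | he j => exact pol_mem.2 fun m hm => absurd rfl hm

theorem glob1 : DSqStmt → Glob1Stmt := fun hD _ _ _ _ _ _ _ =>
  ⟨fun R hR => ⟨good hD hR, eqs hD, onQ hD R⟩, Ypol_eval⟩

end Pool.Agent.MP_8be872_ag.H44
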